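import Pool.Agent.U454.DC1.Num
import Pool.Agent.H369R2.TD.Link

/-!
# `π(K_{r+1}^r) ≥ 1 - 1.919/(r+1)` for all sufficiently large `r`

The notions are those of `Pool.Agent.H120R2.CliqueDefs`.

The determinant codes of the starting library are used with the rate `y = 7` in both parts, with
`lam = 0.9707`, and with the densities of `Pool.Agent.TH485.Uni` (`t(6,5) ≤ 0.3043`,
`t(7,6) ≤ 121/512`, `t(9,8) ≤ 865/4096`, ...) for the Turán systems on the zero sets; then
`D = 1.8062` and `P = exp(-7)`.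
-/

open Filter

namespace Pool.Agent.Results.MP_a4d830_co.BelowTwo

open Pool.Agent.H120R2.Clique

/-- There is `r₀` such that for every `r ≥ r₀` the limit `π(K_{r+1}^r)` of `ex(n, K_{r+1}^r) / C(n,r)`
exists and `π(K_{r+1}^r) ≥ 1 - 1.919/(r+1)`. -/
theorem result : ∃ r₀ : ℕ, ∀ r : ℕ, r₀ ≤ r →
    Tendsto (fun n : ℕ => (ex n r (r + 1) : ℝ) / (n.choose r : ℝ)) atTop
      (nhds (turanDensity r (r + 1))) ∧
    1 - 1.919 / ((r : ℝ) + 1) ≤ turanDensity r (r + 1) := by
  obtain ⟨r₀, h⟩ := eventually_atTop.mp Pool.Agent.U454.DC1.tur_1919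
  refine ⟨r₀, fun r hr => ⟨ratio_tendsto r (r + 1), ?_⟩⟩
  have := Pool.Agent.H369R2.TD.density_of_tur (h r hr)
  have e : (1.919 : ℝ) = 1919 / 1000 := by norm_num
  rw [e]
  exact this

end Pool.Agent.Results.MP_a4d830_co.BelowTwo
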