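import Pool.Agent.U348.K5.BipReal

/-!
# MP_a4d830_co: sums of powers of the codegrees of `K_5^3`-free 3-graphs

For a 3-graph `H` the codegree of a pair of vertices is the number of edges that contain it.  Turán's
conjecture `π(K_5^3) = 3/4` says that the complete balanced bipartite 3-graph has, asymptotically, the
largest sum of the codegrees.  Here this is proved for the sum of the `p`-th powers of the codegrees
for every real exponent `p ≥ 9/5` (the exponent `p = 1` is Turán's conjecture, `p = 2` is a theorem of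
Balogh, Clemen and Lidický), with the sharp constant and for every `n` without error term.
-/

set_option autoImplicit false
open Finset Filter Topology
open scoped Classical

namespace Pool.Agent.Results.MP_a4d830_co.FiveCliqueCodegreePowers
open Pool.Agent.U348.K5

/-- `H` is a 3-graph on `n` vertices that contains no complete 3-graph on five vertices. -/
def IsK5Free {n : ℕ} (H : Finset (Finset (Fin n))) : Prop :=
  (∀ e ∈ H, e.card = 3) ∧ ∀ S : Finset (Fin n), S.card = 5 → ∃ e ⊆ S, e.card = 3 ∧ e ∉ H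

/-- The codegree of a pair `P` of vertices: the number of edges that contain `P`. -/
noncomputable def codegree {n : ℕ} (H : Finset (Finset (Fin n))) (P : Finset (Fin n)) : ℕ :=
  (H.filter (P ⊆ ·)).card

/-- The sum of the `p`-th powers of the codegrees, over all pairs of vertices. -/
noncomputable def powerSum {n : ℕ} (p : ℝ) (H : Finset (Finset (Fin n))) : ℝ :=
  ∑ P ∈ (univ : Finset (Fin n)).powersetCard 2, (codegree H P : ℝ) ^ p

/-- The largest `p`-th power sum of the codegrees of a `K_5^3`-free 3-graph on `n` vertices. -/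
noncomputable def largest (p : ℝ) (n : ℕ) : ℝ :=
  sSup {s : ℝ | ∃ H : Finset (Finset (Fin n)), IsK5Free H ∧ s = powerSum p H}

/-- The complete bipartite 3-graph: all triples that meet both `{i < m}` and its complement. -/
noncomputable def bipartite (n m : ℕ) : Finset (Finset (Fin n)) :=
  ((univ : Finset (Fin n)).powersetCard 3).filter fun e =>
    ¬ e ⊆ univ.filter (fun i : Fin n => i.val < m) ∧ ¬ e ⊆ univ.filter (fun i : Fin n => ¬ i.val < m)

theorem bipartite_eq (n m : ℕ) : bipartite n m = Pool.Agent.H122R2.K5.bip n m := by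
  unfold bipartite Pool.Agent.H122R2.K5.bip Pool.Agent.H122R2.K5.PA Pool.Agent.H122R2.K5.PB
  congr!

theorem bipartite_free (n m : ℕ) : IsK5Free (bipartite n m) := by
  rw [bipartite_eq]
  exact ⟨Pool.Agent.H122R2.K5.bip_card n m, Pool.Agent.H122R2.K5.bip_free n m⟩

theorem upper {n : ℕ} {H : Finset (Finset (Fin n))} (hH : IsK5Free H) {p : ℝ} (hp : 9 / 5 ≤ p) :
    powerSum p H ≤ (1 + (1 / 2 : ℝ) ^ p) / 4 * (n : ℝ) ^ (p + 2) := by
  have h := lp5_pairs hH.1 hH.2 p hp
  rw [Fintype.card_fin] at h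
  refine le_trans (le_of_eq ?_) h
  unfold powerSum codegree Pool.Agent.H122R2.N6.deg2
  congr!

theorem bdd {p : ℝ} (hp : 9 / 5 ≤ p) (n : ℕ) :
    BddAbove {s : ℝ | ∃ H : Finset (Finset (Fin n)), IsK5Free H ∧ s = powerSum p H} := by
  refine ⟨(1 + (1 / 2 : ℝ) ^ p) / 4 * (n : ℝ) ^ (p + 2), ?_⟩
  rintro s ⟨H, hH, rfl⟩
  exact upper hH hp

/-- For every real `p ≥ 9/5` and every `n`, each `K_5^3`-free 3-graph on `n` vertices has
`∑ codegree ^ p ≤ (1 + 2^{-p})/4 · n ^ (p+2)`; complete bipartite 3-graphs with parts `⌊n/2⌋` and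
`n - ⌊n/2⌋` are `K_5^3`-free and attain this asymptotically; so the largest sum is
`((1 + 2^{-p})/4 + o(1)) n ^ (p+2)`. -/
theorem result (p : ℝ) (hp : 9 / 5 ≤ p) :
    (∀ (n : ℕ) (H : Finset (Finset (Fin n))), IsK5Free H →
      powerSum p H ≤ (1 + (1 / 2 : ℝ) ^ p) / 4 * (n : ℝ) ^ (p + 2)) ∧
    ((∀ n : ℕ, IsK5Free (bipartite n (n / 2))) ∧
      Tendsto (fun n : ℕ => powerSum p (bipartite n (n / 2)) / (n : ℝ) ^ (p + 2)) atTop
        (𝓝 ((1 + (1 / 2 : ℝ) ^ p) / 4))) ∧
    Tendsto (fun n : ℕ => largest p n / (n : ℝ) ^ (p + 2)) atTop (𝓝 ((1 + (1 / 2 : ℝ) ^ p) / 4)) := by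
  have hp0 : 0 ≤ p := by linarith
  obtain ⟨f, hf, hle⟩ := powers_lim p hp0
  have hpart : ∀ n : ℕ, part (1 / 2) n = n / 2 := by
    intro n
    unfold part
    rw [one_div, inv_mul_eq_div]
    exact Nat.floor_div_ofNat (n : ℝ) 2 |>.trans (by rw [Nat.floor_natCast])
  have hlow : ∀ᶠ n : ℕ in atTop, f n ≤ powerSum p (bipartite n (n / 2)) / (n : ℝ) ^ (p + 2) := by
    filter_upwards [hle] with n hn
    rw [hpart] at hn
    refine hn.trans (le_of_eq ?_)
    rw [bipartite_eq]
    unfold powerSum codegree Pool.Agent.H122R2.K5.cdg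
    congr!
  have hpos : ∀ᶠ n : ℕ in atTop, (0 : ℝ) < (n : ℝ) ^ (p + 2) := by
    filter_upwards [eventually_ge_atTop 1] with n hn
    have : (0 : ℝ) < (n : ℝ) := by exact_mod_cast hn
    exact Real.rpow_pos_of_pos this _
  refine ⟨fun n H hH => upper hH hp, ⟨fun n => bipartite_free n _, ?_⟩, ?_⟩
  · refine tendsto_of_tendsto_of_tendsto_of_le_of_le' hf tendsto_const_nhds hlow ?_
    filter_upwards [hpos] with n hn
    rw [div_le_iff₀ hn]
    exact upper (bipartite_free n _) hp
  · refine tendsto_of_tendsto_of_tendsto_of_le_of_le' hf tendsto_const_nhds ?_ ?_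
    · filter_upwards [hlow, hpos] with n hn hn'
      refine hn.trans ?_
      gcongr
      exact le_csSup (bdd hp n) ⟨_, bipartite_free n _, rfl⟩
    · filter_upwards [hpos] with n hn
      rw [div_le_iff₀ hn]
      refine csSup_le ⟨_, _, bipartite_free n 0, rfl⟩ ?_
      rintro s ⟨H, hH, rfl⟩
      exact upper hH hp

end Pool.Agent.Results.MP_a4d830_co.FiveCliqueCodegreePowers
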