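import Pool.Agent.U195.HX.Final

/-!
# Exact Turán numbers of `K_5^4` for weakly 2-colourable 4-graphs, and Hadamard matrices

`exSplit n A` is the largest number of edges of a `K_5^4`-free 4-graph on `n` vertices without an
edge inside `A` or inside the complement of `A`; `exTwo n` is the maximum over all `A`.

Outline.  Let `V = A ∪ B`, and let `g(a,a',b,b')` be the indicator of the edges `a a' b b'`.  The
inequality of `FourUniformTwoColourable` compares the average of `1/2 - g` with the number of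
missing `3 + 1` sets.  Here the degenerate quadruples are kept: for `b = b'` the squares in that
proof have a positive contribution, and triples with a repeated vertex need not be counted as
missing.  This gives an upper bound with the correct second order term.  For equal parts equality
forces all `3 + 1` sets to be present, and then for `b ≠ b'` the graph `g(·,·,b,b')` is
triangle-free with `m²/4` edges, hence complete bipartite and balanced; the same holds with the
parts exchanged.  Therefore `1 - 2 g(a,a',b,b') = M(a,b) M(a,b') M(a',b) M(a',b')` for a `±1`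
matrix `M` with orthogonal columns.
-/

set_option autoImplicit false

open Finset

namespace Pool.Agent.Results.MP_a4d830_co.HadamardExact

open Pool.Agent.H120R2.Clique Pool.Agent.W846.F2 Pool.Agent.U195.HX

/-- (1) The bound for every partition; (2) a weakly 2-colourable `K_5^4`-free 4-graph on `2m`
vertices has at most `m² (m - 1) (11 m - 16) / 24` edges; (3) this number is attained if and only if
there is a Hadamard matrix of order `m`; (4) the exact value for `n = 2^(k+1)`; (5) all extremal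
4-graphs. -/
theorem result :
    (∀ (n : ℕ) (A : Finset (Fin n)), A.Nonempty → Aᶜ.Nonempty →
      24 * (exSplit n A : ℝ) ≤
        4 * A.card * Aᶜ.card * (((A.card : ℝ) - 1) * (A.card - 2)
          + ((Aᶜ.card : ℝ) - 1) * (Aᶜ.card - 2))
        + 3 * (A.card : ℝ) ^ 2 * (Aᶜ.card : ℝ) ^ 2
        - 3 * A.card * Aᶜ.card * ((A.card : ℝ) ^ 3 + (Aᶜ.card : ℝ) ^ 3)
          / ((A.card : ℝ) ^ 2 + (Aᶜ.card : ℝ) ^ 2)) ∧
    (∀ m : ℕ, 24 * (exTwo (2 * m) : ℝ) ≤ (m : ℝ) ^ 2 * (m - 1) * (11 * m - 16)) ∧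
    (∀ m : ℕ, 24 * (exTwo (2 * m) : ℝ) = (m : ℝ) ^ 2 * (m - 1) * (11 * m - 16) ↔
      HadamardOrder m) ∧
    (∀ k : ℕ, 24 * (exTwo (2 ^ (k + 1)) : ℝ)
      = ((2 : ℝ) ^ k) ^ 2 * ((2 : ℝ) ^ k - 1) * (11 * (2 : ℝ) ^ k - 16)) ∧
    (∀ (m : ℕ), 3 ≤ m → ∀ (A : Finset (Fin (2 * m))) (G : Finset (Finset (Fin (2 * m)))),
      ((∀ e ∈ G, e.card = 4) ∧ ¬ HasClique G 4 5 ∧ (∀ e ∈ G, ¬ e ⊆ A ∧ ¬ e ⊆ Aᶜ) ∧
        24 * (G.card : ℝ) = (m : ℝ) ^ 2 * (m - 1) * (11 * m - 16)) ↔
      (A.card = m ∧ ∃ D, Balanced A D ∧ G = gr A D)) := by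
  refine ⟨exSplit_bound, exTwo_le, exTwo_eq_iff, exTwo_pow, ?_⟩
  intro m hm A G
  constructor
  · rintro ⟨h1, h2, h3, h4⟩
    exact (extremal_iff hm h1 h2 h3).mp h4
  · rintro ⟨h1, D, h2, rfl⟩
    exact ⟨gr_uniform A D, gr_free A D, gr_split A D,
      (extremal_iff hm (gr_uniform A D) (gr_free A D) (gr_split A D)).mpr ⟨h1, D, h2, rfl⟩⟩

end Pool.Agent.Results.MP_a4d830_co.HadamardExact
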