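import Pool.Agent.U620.K7F.Final
import Pool.Agent.W843.K7.Free

/-!
# The Turán density of the complete 3-graph on seven vertices is at most `0.89815`

A 3-graph on `n` vertices without a complete sub-3-graph on seven vertices has at most
`0.89815 n³ / 6` edges; hence `π(K_7^3) ≤ 0.89815`. The conjectured value is `8/9 = 0.888...`,
de Caen's bound is `14/15`, the bound of the starting library is `0.90760`.

Outline. Flag algebra method of order seven for 3-graphs without a complete sub-3-graph on seven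
vertices. The certificate, found with a solver of our own, consists of one positive semidefinite form
of rank 12 for each type on five vertices, on the flags with one more vertex; of the squares for
types on three vertices; and of the square of the difference of the edge density and a constant. The
inequality between the seven-vertex densities is checked by the kernel for all 3-graphs on seven
vertices except for the complete one.
-/

set_option autoImplicit false
open Finset Filter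
open scoped Classical

namespace Pool.Agent.Results.MP_a4d830_co.SevenCliqueDensity

/-- The 3-graph `H` has no `m` vertices spanning all triples: it is `K_m^3`-free. -/
def KFree (m : ℕ) {n : ℕ} (H : Finset (Finset (Fin n))) : Prop :=
  ∀ S : Finset (Fin n), S.card = m → ∃ T ⊆ S, T.card = 3 ∧ T ∉ H

/-- `ex(n, K_m^3)`: the maximum number of edges of a `K_m^3`-free 3-graph on `n` vertices. -/
noncomputable def ex (m n : ℕ) : ℕ :=
  sSup {k : ℕ | ∃ H : Finset (Finset (Fin n)), (∀ e ∈ H, e.card = 3) ∧ KFree m H ∧ H.card = k}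

theorem edges7 (n : ℕ) (H : Finset (Finset (Fin n))) (h3 : ∀ e ∈ H, e.card = 3) (hK : KFree 7 H) :
    600000 * H.card ≤ 89815 * n ^ 3 := by
  have h1 := Pool.Agent.U620.K7F.main_edges (Pool.Agent.H122R2.N6.tri_sy H)
    (Pool.Agent.W843.K7.tri_noK7 h3 hK)
  rw [Fintype.card_fin] at h1
  have h2 := Pool.Agent.H122R2.N6.six_card_le h3
  have h3' : Pool.Agent.W843.N7.TE (Pool.Agent.H122R2.N6.tri H)
      = ((∑ a, ∑ b, ∑ c, Pool.Agent.H122R2.N6.tri H a b c : ℕ) : ℤ) := by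
    unfold Pool.Agent.W843.N7.TE
    push_cast
    rfl
  rw [h3'] at h1
  have h4 : 100000 * ∑ a, ∑ b, ∑ c, Pool.Agent.H122R2.N6.tri H a b c ≤ 89815 * n ^ 3 := by
    exact_mod_cast h1
  omega

theorem edges_real (n : ℕ) (H : Finset (Finset (Fin n))) (h3 : ∀ e ∈ H, e.card = 3)
    (hK : KFree 7 H) : (H.card : ℝ) ≤ 0.89815 / 6 * (n : ℝ) ^ 3 := by
  have h : ((600000 * H.card : ℕ) : ℝ) ≤ ((89815 * n ^ 3 : ℕ) : ℝ) :=
    by exact_mod_cast edges7 n H h3 hK
  push_cast at h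
  linarith

theorem bdd (n : ℕ) : ∀ k ∈ {k : ℕ | ∃ H : Finset (Finset (Fin n)),
    (∀ e ∈ H, e.card = 3) ∧ KFree 7 H ∧ H.card = k}, k ≤ n.choose 3 := by
  rintro k ⟨H, h1, -, rfl⟩
  have : H ⊆ (univ : Finset (Fin n)).powersetCard 3 := fun e he =>
    mem_powersetCard.2 ⟨subset_univ _, h1 e he⟩
  have h3 := card_le_card this
  rwa [card_powersetCard, card_univ, Fintype.card_fin] at h3

theorem exists_max (n : ℕ) : ∃ H : Finset (Finset (Fin n)),
    (∀ e ∈ H, e.card = 3) ∧ KFree 7 H ∧ H.card = ex 7 n := by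
  have hne : {k : ℕ | ∃ H : Finset (Finset (Fin n)),
      (∀ e ∈ H, e.card = 3) ∧ KFree 7 H ∧ H.card = k}.Nonempty := by
    refine ⟨0, ∅, fun e he => absurd he (notMem_empty e), fun S hS => ?_, card_empty⟩
    obtain ⟨T, hT1, hT2⟩ := exists_subset_card_eq (n := 3) (s := S) (by omega)
    exact ⟨T, hT1, hT2, notMem_empty T⟩
  exact Nat.sSup_mem hne ⟨n.choose 3, fun k hk => bdd n k hk⟩

theorem ex_le (n : ℕ) : (ex 7 n : ℝ) ≤ 0.89815 / 6 * (n : ℝ) ^ 3 := by
  obtain ⟨H, h1, h2, h3⟩ := exists_max n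
  rw [← h3]
  exact edges_real n H h1 h2

theorem choose_ge {n : ℕ} (hn3 : 3 ≤ n) :
    (n : ℝ) ^ 3 - 3 * (n : ℝ) ^ 2 ≤ 6 * ((n.choose 3 : ℕ) : ℝ) := by
  have h1 : n.choose 3 * 6 = n * (n - 1) * (n - 2) := by
    have := Nat.descFactorial_eq_factorial_mul_choose n 3
    have h2 : n.descFactorial 3 = (n - 2) * ((n - 1) * n) := by
      simp [Nat.descFactorial]
    rw [h2] at this
    have h3 : Nat.factorial 3 = 6 := rfl
    rw [h3] at this
    linarith
  have h4 : ((n.choose 3 * 6 : ℕ) : ℝ) = ((n * (n - 1) * (n - 2) : ℕ) : ℝ) := by rw [h1]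
  push_cast [Nat.cast_sub (show 1 ≤ n by omega), Nat.cast_sub (show 2 ≤ n by omega)] at h4
  have hn0 : (0 : ℝ) ≤ (n : ℝ) := by positivity
  nlinarith

theorem ex_eps (ε : ℝ) (hε : 0 < ε) : ∃ N : ℕ, ∀ n : ℕ, N ≤ n →
    (ex 7 n : ℝ) ≤ (0.89815 + ε) * ((n.choose 3 : ℕ) : ℝ) := by
  obtain ⟨N, hN⟩ := exists_nat_gt (3 / ε + 3)
  refine ⟨max N 3, fun n hn => ?_⟩
  have h := ex_le n
  have hn3 : 3 ≤ n := (le_max_right _ _).trans hn
  have hnN : 3 / ε + 3 < (n : ℝ) := hN.trans_le (by exact_mod_cast (le_max_left _ _).trans hn)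
  have hnN' : 3 / ε < (n : ℝ) - 3 := by linarith
  rw [div_lt_iff₀ hε] at hnN'
  have hn0 : (0 : ℝ) ≤ (n : ℝ) := by positivity
  have e1 := choose_ge hn3
  have e2 : 0 ≤ (((n : ℝ) - 3) * ε - 3) * (n : ℝ) ^ 2 :=
    mul_nonneg (by linarith) (by positivity)
  have e3 := mul_le_mul_of_nonneg_left e1 (show (0 : ℝ) ≤ 0.89815 + ε by positivity)
  have e4 : (0 : ℝ) ≤ (n : ℝ) ^ 2 := by positivity
  have e5 : 0.89815 * (n : ℝ) ^ 3 ≤ (0.89815 + ε) * (6 * (n.choose 3 : ℝ)) := by
    refine le_trans ?_ e3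
    have : (0.89815 + ε) * ((n : ℝ) ^ 3 - 3 * (n : ℝ) ^ 2)
        = 0.89815 * (n : ℝ) ^ 3 + (((n : ℝ) - 3) * ε - 3) * (n : ℝ) ^ 2
          + (3 - 2.69445) * (n : ℝ) ^ 2 := by ring
    rw [this]
    nlinarith
  linarith

/-- Every `K_7^3`-free 3-graph on `n` vertices has at most `0.89815 n³ / 6` edges; for every `ε > 0`
and all large `n`, `ex(n, K_7^3) ≤ (0.89815 + ε) C(n,3)`; and the limit of
`ex(n, K_7^3) / C(n,3)` is at most `0.89815`. -/
theorem result :
    (∀ (n : ℕ) (H : Finset (Finset (Fin n))), (∀ e ∈ H, e.card = 3) → KFree 7 H →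
      (H.card : ℝ) ≤ 0.89815 / 6 * (n : ℝ) ^ 3) ∧
    (∀ ε : ℝ, 0 < ε → ∃ N : ℕ, ∀ n : ℕ, N ≤ n →
      (ex 7 n : ℝ) ≤ (0.89815 + ε) * ((n.choose 3 : ℕ) : ℝ)) ∧
    (∀ L : ℝ, Tendsto (fun n : ℕ => (ex 7 n : ℝ) / ((n.choose 3 : ℕ) : ℝ)) atTop (nhds L) →
      L ≤ 0.89815) := by
  refine ⟨edges_real, ex_eps, ?_⟩
  intro L hL
  by_contra hcon
  push Not at hcon
  obtain ⟨N, hN⟩ := ex_eps ((L - 0.89815) / 2) (by linarith)
  have hle : ∀ᶠ n : ℕ in atTop,
      (ex 7 n : ℝ) / ((n.choose 3 : ℕ) : ℝ) ≤ 0.89815 + (L - 0.89815) / 2 := by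
    filter_upwards [eventually_ge_atTop (max N 3)] with n hn
    have hn3 : 3 ≤ n := (le_max_right _ _).trans hn
    have hc : (0 : ℝ) < ((n.choose 3 : ℕ) : ℝ) := by exact_mod_cast Nat.choose_pos hn3
    rw [div_le_iff₀ hc]
    exact hN n ((le_max_left _ _).trans hn)
  have := le_of_tendsto hL hle
  linarith

end Pool.Agent.Results.MP_a4d830_co.SevenCliqueDensity
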